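import Pool.Agent.Q277.EP.Plane

/-!
# A recursion for the best approximation denominators with respect to an arbitrary norm

For every norm on `ℝ²` and every `θ`, `M_{ν+4} ≥ M_{ν+2} + M_ν` for all large `ν`. So the double
infimum of the growth exponents over all norms and all admissible `θ` lies between
`√((1 + √5)/2) = 1.2720…` and `φ = 1.3247…`.

Proof: see `Pool/Agent/Q277/EP` (`Planar`, `Norm`). Let `z_0, …, z_4` be consecutive best approximations with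
`x_4 < x_1 + x_2`. Among four vectors of `ℤ³` a nonempty subset has an even sum. Subsets of one and
two elements are excluded as in Lagarias' work; three elements by a lemma on three vectors `p, q, r`
of a normed plane (not all three of the half-sums with one sign changed can be long); for four elements a lemma on
four vectors of a normed plane (for one of the three pairings the half-difference is shorter
than the longest vector) gives `z_4 = z_2 + z_3 - z_1`, and the same arguments with `z_0` give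
`x_0 ≤ x_3 - x_1`.
-/

set_option autoImplicit false

open Filter

namespace Pool.Agent.Results.MP_f10524_nt.AllNorms

/-- a norm on the plane -/
def IsNorm (N : (Fin 2 → ℝ) → ℝ) : Prop :=
  (∀ x, N x = 0 ↔ x = 0) ∧ (∀ x y, N (x + y) ≤ N x + N y) ∧
    ∀ (r : ℝ) (x : Fin 2 → ℝ), N (r • x) = |r| * N x

/-- `q θ` is not an integer vector for `q ≠ 0` -/
def Admissible (θ : Fin 2 → ℝ) : Prop :=
  ∀ q : ℤ, q ≠ 0 → ¬ ∀ i : Fin 2, ∃ a : ℤ, (q : ℝ) * θ i = (a : ℝ)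

/-- `x θ - y` -/
def err (θ : Fin 2 → ℝ) (z : ℤ × (Fin 2 → ℤ)) : Fin 2 → ℝ := fun i => z.1 * θ i - z.2 i

/-- `z = (x, y) ≠ 0` is a best approximation vector: the only integer points `(x', y')` with
`|x'| ≤ |x|` and `|x' θ - y'| ≤ |x θ - y|` are `0` and `±z`. -/
def Best (N : (Fin 2 → ℝ) → ℝ) (θ : Fin 2 → ℝ) (z : ℤ × (Fin 2 → ℤ)) : Prop :=
  z ≠ 0 ∧ ∀ z' : ℤ × (Fin 2 → ℤ), |z'.1| ≤ |z.1| → N (err θ z') ≤ N (err θ z) →
    z' = 0 ∨ z' = z ∨ z' = -z

/-- `z_1, z_2, …` are the best approximation vectors up to sign, by increasing `|x|`. -/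
def Enumeration (N : (Fin 2 → ℝ) → ℝ) (θ : Fin 2 → ℝ) (z : ℕ → ℤ × (Fin 2 → ℤ)) : Prop :=
  (∀ ν, 1 ≤ ν → Best N θ (z ν)) ∧ (∀ i j, 1 ≤ i → i < j → |(z i).1| < |(z j).1|) ∧
  (∀ v, Best N θ v → ∃ ν, 1 ≤ ν ∧ (v = z ν ∨ v = -z ν))

/-- `liminf M_ν^(1/ν)`, `M_ν = |x_ν|` -/
noncomputable def G (z : ℕ → ℤ × (Fin 2 → ℤ)) : EReal :=
  liminf (fun ν : ℕ => (((((|(z ν).1| : ℤ) : ℝ) ^ (1 / (ν : ℝ)) : ℝ)) : EReal)) atTop

/-- (1) For every norm on the plane, every `θ` and every enumeration of its best approximation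
vectors, `M_{ν+4} ≥ M_{ν+2} + M_ν` for all large `ν`.
(2) The double infimum of `G` over all norms and all admissible `θ` is at least
`√((1 + √5)/2) = 1.2720…`, and at most the real root `φ = 1.3247…` of `t³ = t + 1`. -/
theorem result :
    (∀ N, IsNorm N → ∀ θ z, Enumeration N θ z → ∃ ν₀ : ℕ, ∀ ν, ν₀ ≤ ν →
      |(z (ν + 2)).1| + |(z ν).1| ≤ |(z (ν + 4)).1|) ∧
    ((Real.sqrt ((1 + Real.sqrt 5) / 2) : ℝ) : EReal) ≤
      sInf {x : EReal | ∃ N, IsNorm N ∧ ∃ θ, Admissible θ ∧ ∃ z, Enumeration N θ z ∧ x = G z} ∧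
    ∀ φ : ℝ, φ ^ 3 = φ + 1 →
      sInf {x : EReal | ∃ N, IsNorm N ∧ ∃ θ, Admissible θ ∧ ∃ z, Enumeration N θ z ∧ x = G z} ≤
        (φ : EReal) := by
  have h5 : Real.sqrt 5 ^ 2 = 5 := Real.sq_sqrt (by norm_num)
  have h50 : 0 ≤ Real.sqrt 5 := Real.sqrt_nonneg 5
  set t := Real.sqrt ((1 + Real.sqrt 5) / 2) with ht
  have ht2 : t ^ 2 = (1 + Real.sqrt 5) / 2 := Real.sq_sqrt (by positivity)
  have ht0 : 0 < t := Real.sqrt_pos.2 (by positivity)
  have ht4 : t ^ 4 = t ^ 2 + 1 := by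
    have : t ^ 4 = (t ^ 2) ^ 2 := by ring
    rw [this, ht2]
    nlinarith
  have ht1 : 1 ≤ t := by
    by_contra hlt
    push Not at hlt
    have : t ^ 4 < 1 := pow_lt_one₀ ht0.le hlt (by norm_num)
    have h3 : 0 < t ^ 2 := by positivity
    linarith
  refine ⟨fun N hN θ z hz => ?_, ?_, fun φ hφ => ?_⟩
  · have hz' : Q277.EP.Enumeration N θ z := hz
    obtain ⟨k, hk⟩ := hz'.conv
    have hN' : Pool.Agent.TH970.GB.IsNorm N := ⟨hN.1, hN.2.1, hN.2.2⟩
    obtain ⟨ν₀, -, h⟩ := Q277.EP.IsEnum.steps Q277.EP.ab_norm hN' hk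
    refine ⟨ν₀ + k, fun ν hν => ?_⟩
    obtain ⟨m, rfl⟩ := Nat.exists_eq_add_of_le hν
    have h1 := h (ν₀ + m) (by omega)
    rw [Q277.EP.ab_cv, Q277.EP.ab_cv, Q277.EP.ab_cv, Q277.EP.conv_fst, Q277.EP.conv_fst,
      Q277.EP.conv_fst, show ν₀ + m + 2 + k = ν₀ + k + m + 2 by ring,
      show ν₀ + m + 4 + k = ν₀ + k + m + 4 by ring, show ν₀ + m + k = ν₀ + k + m by ring] at h1
    exact_mod_cast h1
  · apply le_sInf
    rintro x ⟨N, hN, θ, -, z, hz, rfl⟩
    have hz' : Q277.EP.Enumeration N θ z := hz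
    obtain ⟨C, hC, ν₀, h⟩ := hz'.lower_of ht1 fun y hy =>
      Q277.EP.IsEnum.lowerN Q277.EP.ab_norm ⟨hN.1, hN.2.1, hN.2.2⟩ hy ht0 ht4
    exact Q277.EP.liminf_ge' hC ht0 h
  · have hp : 0 < φ := by linarith [Q277.EP.plastic_gt hφ]
    obtain ⟨hadm, z, hz, C, hC, hb⟩ := Q277.EP.plain_example hφ
    have hEn : IsNorm Q277.EP.euc :=
      ⟨Q277.EP.euc_norm.zero_iff, Q277.EP.euc_norm.add_le, Q277.EP.euc_norm.smul⟩
    have hz' : Enumeration Q277.EP.euc (Q277.EP.th φ) z := hz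
    have hmem : G z ∈ {x : EReal | ∃ N, IsNorm N ∧ ∃ θ, Admissible θ ∧
        ∃ z, Enumeration N θ z ∧ x = G z} := ⟨_, hEn, _, hadm, z, hz', rfl⟩
    exact (sInf_le hmem).trans (Q277.EP.liminf_le hC hp (fun ν _ => by positivity) hb)

end Pool.Agent.Results.MP_f10524_nt.AllNorms
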