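import Pool.Agent.Q277.EP.Plane

/-!
# Lagarias' question for all norms which come from an inner product

For the norms on `ℝ²` with the parallelogram law the double infimum of the growth exponents
`G(θ) = liminf M_ν^(1/ν)` of the best approximation denominators is exactly `φ = 1.3247…`,
`φ³ = φ + 1`, and it is attained (for the Euclidean norm). In fact `M_ν ≥ C φ^ν` for every such norm
and every `θ`.

Proof of the lower bound: see `Pool/Agent/Q277/EP` (`Core`, `Slow`, `Growth`). Let `z_0, …, z_6` be consecutive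
best approximations with `x_6 < x_3 + x_4`. Parity arguments and a lemma on four vectors of a normed
plane give `z_6 = z_4 + z_5 - z_3`, `x_2 ≤ x_5 - x_3`, `x_1 ≤ x_4 - x_3`, and the function
`V_n = x_n + φ² x_{n+1} + φ x_{n+2}` satisfies `V_{n+1} ≥ φ V_n` or `V_{n+1} ≥ φ³ V_{n-2}`.
-/

set_option autoImplicit false

open Filter

namespace Pool.Agent.Results.MP_f10524_nt.InnerProductNorms

/-- a norm on the plane -/
def IsNorm (N : (Fin 2 → ℝ) → ℝ) : Prop :=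
  (∀ x, N x = 0 ↔ x = 0) ∧ (∀ x y, N (x + y) ≤ N x + N y) ∧
    ∀ (r : ℝ) (x : Fin 2 → ℝ), N (r • x) = |r| * N x

/-- the norm comes from an inner product -/
def Parallelogram (N : (Fin 2 → ℝ) → ℝ) : Prop :=
  ∀ x y, N (x + y) ^ 2 + N (x - y) ^ 2 = 2 * (N x ^ 2 + N y ^ 2)

/-- `q θ` is not an integer vector for `q ≠ 0` -/
def Admissible (θ : Fin 2 → ℝ) : Prop :=
  ∀ q : ℤ, q ≠ 0 → ¬ ∀ i : Fin 2, ∃ a : ℤ, (q : ℝ) * θ i = (a : ℝ)

/-- `x θ - y` -/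
def err (θ : Fin 2 → ℝ) (z : ℤ × (Fin 2 → ℤ)) : Fin 2 → ℝ := fun i => z.1 * θ i - z.2 i

/-- `z = (x, y) ≠ 0` is a best approximation vector: the only integer points `(x', y')` with
`|x'| ≤ |x|` and `|x' θ - y'| ≤ |x θ - y|` are `0` and `±z`. -/
def Best (N : (Fin 2 → ℝ) → ℝ) (θ : Fin 2 → ℝ) (z : ℤ × (Fin 2 → ℤ)) : Prop :=
  z ≠ 0 ∧ ∀ z' : ℤ × (Fin 2 → ℤ), |z'.1| ≤ |z.1| → N (err θ z') ≤ N (err θ z) →
    z' = 0 ∨ z' = z ∨ z' = -z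

/-- `z_1, z_2, …` are the best approximation vectors up to sign, by increasing `|x|`. -/
def Enumeration (N : (Fin 2 → ℝ) → ℝ) (θ : Fin 2 → ℝ) (z : ℕ → ℤ × (Fin 2 → ℤ)) : Prop :=
  (∀ ν, 1 ≤ ν → Best N θ (z ν)) ∧ (∀ i j, 1 ≤ i → i < j → |(z i).1| < |(z j).1|) ∧
  (∀ v, Best N θ v → ∃ ν, 1 ≤ ν ∧ (v = z ν ∨ v = -z ν))

/-- `liminf M_ν^(1/ν)`, `M_ν = |x_ν|` -/
noncomputable def G (z : ℕ → ℤ × (Fin 2 → ℤ)) : EReal :=
  liminf (fun ν : ℕ => (((((|(z ν).1| : ℤ) : ℝ) ^ (1 / (ν : ℝ)) : ℝ)) : EReal)) atTop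

/-- Let `φ` be the real root of `t³ = t + 1`.
(1) For every norm with the parallelogram law, every `θ` and every enumeration, `M_ν ≥ C φ^ν` for
large `ν`, with some `C > 0`.
(2) The double infimum of `G` over the norms with the parallelogram law and the admissible `θ` is
`φ`.
(3) It is attained: for the Euclidean norm there is an admissible `θ` with `G = φ`, and
`c φ^ν ≤ M_ν ≤ C φ^ν` for large `ν`. -/
theorem result (φ : ℝ) (hφ : φ ^ 3 = φ + 1) :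
    (∀ N, IsNorm N → Parallelogram N → ∀ θ z, Enumeration N θ z →
      ∃ C : ℝ, 0 < C ∧ ∃ ν₀ : ℕ, ∀ ν, ν₀ ≤ ν → C * φ ^ ν ≤ ((|(z ν).1| : ℤ) : ℝ)) ∧
    sInf {x : EReal | ∃ N, IsNorm N ∧ Parallelogram N ∧ ∃ θ, Admissible θ ∧
      ∃ z, Enumeration N θ z ∧ x = G z} = (φ : EReal) ∧
    (∃ θ, Admissible θ ∧ ∃ z, Enumeration (fun v => Real.sqrt (v 0 ^ 2 + v 1 ^ 2)) θ z ∧
      G z = (φ : EReal) ∧ ∃ c C : ℝ, 0 < c ∧ ∃ ν₀ : ℕ, ∀ ν, ν₀ ≤ ν →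
        c * φ ^ ν ≤ ((|(z ν).1| : ℤ) : ℝ) ∧ ((|(z ν).1| : ℤ) : ℝ) ≤ C * φ ^ ν) := by
  have h1 : 1 < φ := Q277.EP.plastic_gt hφ
  have hp : 0 < φ := by linarith
  have hlow : ∀ N, IsNorm N → Parallelogram N → ∀ θ z, Enumeration N θ z →
      ∃ C : ℝ, 0 < C ∧ ∃ ν₀ : ℕ, ∀ ν, ν₀ ≤ ν → C * φ ^ ν ≤ ((|(z ν).1| : ℤ) : ℝ) := by
    intro N hN hpar θ z hz
    have hz' : Q277.EP.Enumeration N θ z := hz
    exact hz'.lower_of h1.le fun y hy =>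
      Q277.EP.IsEnum.lower Q277.EP.ab_norm ⟨hN.1, hN.2.1, hN.2.2⟩ hpar hy hφ
  have hge : ∀ N, IsNorm N → Parallelogram N → ∀ θ z, Enumeration N θ z → (φ : EReal) ≤ G z := by
    intro N hN hpar θ z hz
    obtain ⟨C, hC, ν₀, h⟩ := hlow N hN hpar θ z hz
    exact Q277.EP.liminf_ge' hC hp h
  have hEn : IsNorm (fun v => Real.sqrt (v 0 ^ 2 + v 1 ^ 2)) :=
    ⟨Q277.EP.euc_norm.zero_iff, Q277.EP.euc_norm.add_le, Q277.EP.euc_norm.smul⟩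
  have hEp : Parallelogram (fun v => Real.sqrt (v 0 ^ 2 + v 1 ^ 2)) := by
    intro x y
    simp only
    rw [Real.sq_sqrt (by positivity), Real.sq_sqrt (by positivity), Real.sq_sqrt (by positivity),
      Real.sq_sqrt (by positivity)]
    simp only [Pi.add_apply, Pi.sub_apply]
    ring
  have hex : ∃ θ, Admissible θ ∧ ∃ z, Enumeration (fun v => Real.sqrt (v 0 ^ 2 + v 1 ^ 2)) θ z ∧
      G z = (φ : EReal) ∧ ∃ c C : ℝ, 0 < c ∧ ∃ ν₀ : ℕ, ∀ ν, ν₀ ≤ ν →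
        c * φ ^ ν ≤ ((|(z ν).1| : ℤ) : ℝ) ∧ ((|(z ν).1| : ℤ) : ℝ) ≤ C * φ ^ ν := by
    obtain ⟨hadm, z, hz, C, hC, hb⟩ := Q277.EP.plain_example hφ
    have hz' : Enumeration (fun v => Real.sqrt (v 0 ^ 2 + v 1 ^ 2)) (Q277.EP.th φ) z := hz
    obtain ⟨c, hc, ν₀, h⟩ := hlow _ hEn hEp _ z hz'
    refine ⟨_, hadm, z, hz', le_antisymm ?_ (hge _ hEn hEp _ z hz'), c, C, hc, max ν₀ 1,
      fun ν hν => ⟨h ν ((le_max_left _ _).trans hν), hb ν ((le_max_right _ _).trans hν)⟩⟩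
    exact Q277.EP.liminf_le hC hp (fun ν _ => by positivity) hb
  refine ⟨hlow, le_antisymm ?_ ?_, hex⟩
  · obtain ⟨θ, hθ, z, hz, hG, -⟩ := hex
    exact sInf_le ⟨_, hEn, hEp, θ, hθ, z, hz, hG.symm⟩
  · apply le_sInf
    rintro x ⟨N, hN, hpar, θ, -, z, hz, rfl⟩
    exact hge N hN hpar θ z hz

end Pool.Agent.Results.MP_f10524_nt.InnerProductNorms
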